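import Pool.Agent.H30.BV.Targets

/-! # Primes `p` for which `p ^ 2 - 2` has a bounded number of prime factors -/

set_option autoImplicit false

open Finset Real ArithmeticFunction

namespace Pool.Agent.H19.BV

open Pool.Agent.H30.BV Pool.Agent.H27.LS

theorem pow_length_le (l : List ℕ) (y : ℝ) (hy : 0 ≤ y) (h : ∀ p ∈ l, y ≤ (p : ℝ)) :
    y ^ l.length ≤ ((l.prod : ℕ) : ℝ) := by
  induction l with
  | nil => simp
  | cons a l ih =>
    rw [List.length_cons, List.prod_cons, pow_succ, Nat.cast_mul, mul_comm]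
    apply mul_le_mul (h a (by simp)) (ih (fun p hp => h p (by simp [hp])))
    · positivity
    · positivity

theorem pow_cardFactors_le {m : ℕ} (hm : m ≠ 0) (y : ℝ) (hy : 0 ≤ y)
    (h : ∀ p : ℕ, p.Prime → p ∣ m → y ≤ (p : ℝ)) : y ^ (cardFactors m) ≤ (m : ℝ) := by
  have h1 := pow_length_le m.primeFactorsList y hy
    (fun p hp => h p (Nat.prime_of_mem_primeFactorsList hp) (Nat.dvd_of_mem_primeFactorsList hp))
  rw [Nat.prod_primeFactorsList hm] at h1
  exact h1

theorem ev_log : ∀ ε : ℝ, 0 < ε → ∃ X₂ : ℝ, ∀ X : ℝ, X₂ ≤ X → Real.log X ^ 2 ≤ ε * √X := by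
  intro ε hε
  have h1 := (isLittleO_log_rpow_rpow_atTop (s := 1 / 2) 2 (by norm_num)).bound hε
  obtain ⟨X₂, hX₂⟩ := Filter.eventually_atTop.1 h1
  refine ⟨X₂, fun X hX => ?_⟩
  have h2 := hX₂ X hX
  rw [Real.rpow_two, Real.norm_of_nonneg (sq_nonneg _), ← Real.sqrt_eq_rpow,
    Real.norm_of_nonneg (Real.sqrt_nonneg _)] at h2
  exact h2

open Chebyshev in
theorem nonprime_sum {N : ℕ} (hN : 1 ≤ N) :
    ∑ n ∈ (Icc 1 N).filter (fun n => ¬ n.Prime), Λ n ≤ 2 * √(N : ℝ) * Real.log N := by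
  refine le_trans ?_ (psi_sub_theta_le (x := (N : ℝ)) (by exact_mod_cast hN))
  rw [psi_sub_theta_eq_sum_not_prime, Nat.floor_natCast]
  exact le_rfl

/-- the upper bound for the weights in terms of the number of primes -/
theorem weight_le {X : ℝ} (hX : 0 < X) {x : ℕ} (S : Finset ℕ) (hS : S ⊆ Icc 1 x) (hx : 1 ≤ x) :
    ∑ n ∈ S, wx X n ≤ 2 * √(x : ℝ) * Real.log x +
      ((S.filter (fun n : ℕ => n.Prime ∧ X / 3 < (n : ℝ))).card : ℝ) * Real.log x := by
  have hlog : 0 ≤ Real.log x := Real.log_nonneg (by exact_mod_cast hx)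
  have h1 : ∑ n ∈ S, wx X n ≤ ∑ n ∈ S, ((if ¬ n.Prime then Λ n else 0) +
      (if n.Prime ∧ X / 3 < (n : ℝ) then Real.log x else 0)) := by
    apply sum_le_sum
    intro n hn
    have hn' := hS hn
    rw [mem_Icc] at hn'
    have hn0 : (0 : ℝ) < n := by exact_mod_cast hn'.1
    have hL : 0 ≤ Λ n := vonMangoldt_nonneg
    have hh1 := hat_le_one (Real.log (n / X))
    have hh0 := hat_nonneg (Real.log (n / X))
    have hw : wx X n ≤ Λ n := by
      unfold wx
      nlinarith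
    by_cases hp : n.Prime
    · rw [if_neg (not_not.2 hp), zero_add]
      by_cases h3 : X / 3 < (n : ℝ)
      · rw [if_pos ⟨hp, h3⟩]
        refine hw.trans (vonMangoldt_le_log.trans ?_)
        exact Real.log_le_log hn0 (by exact_mod_cast hn'.2)
      · rw [if_neg (fun h => h3 h.2)]
        unfold wx
        rw [hat_log_eq_zero_of_le hX hn0 (by linarith), mul_zero]
    · rw [if_pos hp, if_neg (fun h => hp h.1), add_zero]
      exact hw
  refine h1.trans ?_
  rw [sum_add_distrib, ← sum_filter, ← sum_filter, sum_const, nsmul_eq_mul]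
  apply add_le_add_left
  refine le_trans ?_ (nonprime_sum hx)
  apply sum_le_sum_of_subset_of_nonneg (filter_subset_filter _ hS)
  intro n _ _
  exact vonMangoldt_nonneg

theorem lb (hLL : T_LL) (hUU : T_UU) : T_LB := by
  classical
  obtain ⟨η₁, hη₁, hLL⟩ := hLL
  obtain ⟨η₂, hη₂, hUU⟩ := hUU
  set η : ℝ := min (min η₁ η₂) (1 / 2) with hηdef
  have hη : 0 < η := lt_min (lt_min hη₁ hη₂) (by norm_num)
  have hη2 : η ≤ 1 / 2 := min_le_right _ _
  obtain ⟨c, hc, hLL⟩ := hLL η hη ((min_le_left _ _).trans (min_le_left _ _))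
  obtain ⟨C, X₁, hC, hUU⟩ := hUU η hη ((min_le_left _ _).trans (min_le_right _ _))
  obtain ⟨M, hM⟩ := exists_nat_ge (max 3 (8 * C / c))
  obtain ⟨X₀, hLL⟩ := hLL M
  obtain ⟨X₂, hX₂⟩ := ev_log (c / 28) (by positivity)
  set K : ℝ := max (max X₀ X₁) (max X₂ 9) with hK
  obtain ⟨x₀, hx₀⟩ := exists_nat_ge (3 * K)
  refine ⟨⌈3 / η⌉₊, c / 12, x₀, by positivity, ?_⟩
  intro x hx
  set X : ℝ := x / 3 with hXdef
  have hxX : (x : ℝ) = 3 * X := by rw [hXdef]; ring
  have hKX : K ≤ X := by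
    have : (x₀ : ℝ) ≤ x := by exact_mod_cast hx
    rw [hXdef, le_div_iff₀ (by norm_num)]
    linarith
  have hX0 : X₀ ≤ X := ((le_max_left _ _).trans (le_max_left _ _)).trans hKX
  have hX1 : X₁ ≤ X := ((le_max_right _ _).trans (le_max_left _ _)).trans hKX
  have hX2 : X₂ ≤ X := ((le_max_left _ _).trans (le_max_right _ _)).trans hKX
  have hX9 : 9 ≤ X := ((le_max_right _ _).trans (le_max_right _ _)).trans hKX
  have hXpos : 0 < X := by linarith
  have hNX : NX X = x := by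
    unfold NX
    rw [← hxX, Nat.ceil_natCast]
  have hx1 : 1 ≤ x := by
    have : (1 : ℝ) ≤ x := by linarith
    exact_mod_cast this
  set L : ℝ := Real.log X with hL
  have hL0 : 0 < L := Real.log_pos (by linarith)
  have hlx : Real.log x ≤ 2 * L := by
    rw [hxX, hL, ← Real.log_rpow hXpos]
    apply Real.log_le_log (by positivity)
    rw [Real.rpow_two]
    nlinarith
  have hlx' : L ≤ Real.log x := Real.log_le_log hXpos (by linarith)
  have hlx0 : 0 < Real.log x := by linarith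
  have hsq : √X * √X = X := Real.mul_self_sqrt hXpos.le
  have hs3 : 3 ≤ √X := by
    rw [Real.le_sqrt (by norm_num) hXpos.le]
    linarith
  obtain ⟨p₁, hp₁, hMp, hp8, hS⟩ := hLL X hX0
  have hU := hUU X p₁ hX1 hp₁ (by
    have h3 : (3 : ℝ) ≤ M := (le_max_left _ _).trans hM
    have h3' : 3 ≤ M := by exact_mod_cast h3
    omega) hp8
  rw [hNX] at hS hU
  set S : Finset ℕ := (Icc 1 x).filter
    (fun n : ℕ => ∀ p ∈ PZ (X ^ η) p₁, ¬ (p : ℤ) ∣ (n : ℤ) ^ 2 - 2) with hSdef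
  set G : Finset ℕ := S.filter (fun n : ℕ => n.Prime ∧ X / 3 < (n : ℝ)) with hG
  -- the number of primes in S
  have hGcard : 3 * c / 8 * (X / L ^ 2) ≤ (G.card : ℝ) := by
    have h1 := weight_le hXpos S (filter_subset _ _) hx1
    have h2 : c * X / L ≤ 2 * √(x : ℝ) * Real.log x + (G.card : ℝ) * Real.log x := hS.trans h1
    have h3 : √(x : ℝ) ≤ 7 / 4 * √X := by
      rw [hxX, Real.sqrt_le_iff]
      refine ⟨by positivity, ?_⟩
      rw [mul_pow, Real.sq_sqrt hXpos.le]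
      nlinarith
    have h4 : 2 * √(x : ℝ) * Real.log x ≤ c / 4 * (X / L) := by
      have h5 : 2 * √(x : ℝ) * Real.log x ≤ 2 * (7 / 4 * √X) * (2 * L) := by
        apply mul_le_mul _ hlx hlx0.le (by positivity)
        linarith
      have h6 := hX₂ X hX2
      rw [← hL] at h6
      have h7 : 7 * √X * L ^ 2 ≤ c / 4 * X := by
        calc 7 * √X * L ^ 2 ≤ 7 * √X * (c / 28 * √X) := by
              apply mul_le_mul_of_nonneg_left h6 (by positivity)
          _ = c / 4 * (√X * √X) := by ring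
          _ = c / 4 * X := by rw [hsq]
      refine h5.trans ?_
      rw [← mul_div_assoc, le_div_iff₀ hL0]
      calc 2 * (7 / 4 * √X) * (2 * L) * L = 7 * √X * L ^ 2 := by ring
        _ ≤ c / 4 * X := h7
    have h8 : (G.card : ℝ) * Real.log x ≤ (G.card : ℝ) * (2 * L) :=
      mul_le_mul_of_nonneg_left hlx (Nat.cast_nonneg _)
    have h9 : 3 * c / 4 * (X / L) ≤ (G.card : ℝ) * (2 * L) := by
      have : c * X / L = c * (X / L) := by ring
      rw [this] at h2
      linarith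
    have h10 : 3 * c / 8 * (X / L ^ 2) = 3 * c / 4 * (X / L) / (2 * L) := by
      field_simp
      ring
    rw [h10, div_le_iff₀ (by positivity)]
    exact h9
  have hXη : X ^ η ≤ X / 3 := by
    calc X ^ η ≤ X ^ (1 / 2 : ℝ) := Real.rpow_le_rpow_of_exponent_le (by linarith) hη2
      _ = √X := (Real.sqrt_eq_rpow X).symm
      _ ≤ X / 3 := by
        rw [le_div_iff₀ (by norm_num)]
        nlinarith
  -- the bad ones
  have hBd : ((G.filter (fun n : ℕ => (p₁ : ℤ) ∣ (n : ℤ) ^ 2 - 2)).card : ℝ) ≤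
      c / 8 * (X / L ^ 2) := by
    have h1 : (G.filter (fun n : ℕ => (p₁ : ℤ) ∣ (n : ℤ) ^ 2 - 2)) ⊆
        (Icc 1 x).filter (fun n : ℕ => (p₁ : ℤ) ∣ (n : ℤ) ^ 2 - 2 ∧
          ∀ p ∈ PZ (X ^ η) p₁, ¬ (p : ℤ) ∣ (n : ℤ) * ((n : ℤ) ^ 2 - 2)) := by
      intro n hn
      rw [mem_filter, hG, mem_filter, hSdef, mem_filter] at hn
      obtain ⟨⟨⟨hnI, hnS⟩, hnp, hn3⟩, hnd⟩ := hn
      rw [mem_filter]
      refine ⟨hnI, hnd, ?_⟩
      intro p hp hdv
      have hpp : p.Prime := by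
        unfold PZ at hp
        rw [mem_filter] at hp
        exact hp.2.1
      rcases (Nat.prime_iff_prime_int.1 hpp).dvd_or_dvd hdv with h2 | h2
      · have h3 : p ∣ n := by exact_mod_cast h2
        have h4 : p = n := (Nat.prime_dvd_prime_iff_eq hpp hnp).1 h3
        have h5 : (p : ℝ) ≤ X ^ η := by
          unfold PZ at hp
          rw [mem_filter, mem_Icc] at hp
          exact (Nat.le_floor_iff (by positivity)).1 hp.1.2
        rw [h4] at h5
        linarith
      · exact hnS p hp h2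
    have h2 : ((G.filter (fun n : ℕ => (p₁ : ℤ) ∣ (n : ℤ) ^ 2 - 2)).card : ℝ) ≤
        C * X / (p₁ * L ^ 2) := le_trans (by exact_mod_cast card_le_card h1) hU
    refine h2.trans ?_
    have hp0 : (0 : ℝ) < p₁ := by exact_mod_cast hp₁.pos
    have h3 : 8 * C / c ≤ (p₁ : ℝ) := ((le_max_right _ _).trans hM).trans (by exact_mod_cast hMp)
    rw [div_le_iff₀ hc] at h3
    have h4 : C / p₁ ≤ c / 8 := by
      rw [div_le_iff₀ hp0]
      linarith
    have h5 : C * X / (p₁ * L ^ 2) = C / p₁ * (X / L ^ 2) := by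
      field_simp
    rw [h5]
    exact mul_le_mul_of_nonneg_right h4 (by positivity)
  -- the good ones
  have hgood : G.filter (fun n : ℕ => ¬ (p₁ : ℤ) ∣ (n : ℤ) ^ 2 - 2) ⊆
      (Icc 1 x).filter (fun p => p.Prime ∧ cardFactors (p ^ 2 - 2) ≤ ⌈3 / η⌉₊) := by
    intro n hn
    rw [mem_filter, hG, mem_filter, hSdef, mem_filter] at hn
    obtain ⟨⟨⟨hnI, hnS⟩, hnp, hn3⟩, hnd⟩ := hn
    rw [mem_filter]
    refine ⟨hnI, hnp, ?_⟩
    have hn4 : 3 < n := by
      have : (3 : ℝ) < n := by linarith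
      exact_mod_cast this
    have hn2 : 2 ≤ n ^ 2 := by nlinarith
    have hm0 : n ^ 2 - 2 ≠ 0 := by
      have : 9 ≤ n ^ 2 := by nlinarith
      omega
    have hcast : ((n ^ 2 - 2 : ℕ) : ℤ) = (n : ℤ) ^ 2 - 2 := by
      rw [Nat.cast_sub hn2, Nat.cast_pow]
      rfl
    have hX1' : 1 ≤ X ^ η := Real.one_le_rpow (by linarith) hη.le
    have h1 := pow_cardFactors_le hm0 (X ^ η) (by positivity) (by
      intro p hp hpd
      by_contra hcon
      push Not at hcon
      have hpd' : (p : ℤ) ∣ (n : ℤ) ^ 2 - 2 := by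
        rw [← hcast]
        exact_mod_cast hpd
      have hp2 : p ≠ 2 := by
        rintro rfl
        have h2 : (2 : ℤ) ∣ (n : ℤ) ^ 2 := by
          have := dvd_add hpd' (dvd_refl (2 : ℤ))
          simpa using this
        have h3 : 2 ∣ n := by
          have h4 : (2 : ℕ) ∣ n ^ 2 := by exact_mod_cast h2
          exact Nat.prime_two.dvd_of_dvd_pow h4
        have h5 := (Nat.prime_dvd_prime_iff_eq Nat.prime_two hnp).1 h3
        omega
      have hp1 : p ≠ p₁ := by
        rintro rfl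
        exact hnd hpd'
      have hp3 : 3 ≤ p := by
        have := hp.two_le
        omega
      refine hnS p ?_ hpd'
      unfold PZ
      rw [mem_filter, mem_Icc]
      exact ⟨⟨hp3, (Nat.le_floor_iff (by positivity)).2 hcon.le⟩, hp, hp1⟩)
    have h2 : ((n ^ 2 - 2 : ℕ) : ℝ) ≤ X ^ (3 : ℝ) := by
      have h3 : ((n ^ 2 - 2 : ℕ) : ℝ) ≤ (n : ℝ) ^ 2 := by
        have : n ^ 2 - 2 ≤ n ^ 2 := Nat.sub_le _ _
        exact_mod_cast this
      have h4 : (n : ℝ) ≤ 3 * X := by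
        rw [← hxX]
        exact_mod_cast (mem_Icc.1 hnI).2
      have h5 : (n : ℝ) ^ 2 ≤ (3 * X) ^ 2 := pow_le_pow_left₀ (by positivity) h4 2
      have h6 : X ^ (3 : ℝ) = X ^ 2 * X := by
        rw [show (3 : ℝ) = ((3 : ℕ) : ℝ) by norm_num, Real.rpow_natCast]
        ring
      rw [h6]
      nlinarith [sq_nonneg X]
    have h3 := h1.trans h2
    rw [← Real.rpow_natCast, ← Real.rpow_mul hXpos.le,
      Real.rpow_le_rpow_left_iff (by linarith)] at h3
    have h4 : (cardFactors (n ^ 2 - 2) : ℝ) ≤ 3 / η := by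
      rw [le_div_iff₀ hη]
      linarith
    have h5 := h4.trans (Nat.le_ceil (3 / η))
    exact_mod_cast h5
  have hsplit : (G.filter (fun n : ℕ => (p₁ : ℤ) ∣ (n : ℤ) ^ 2 - 2)).card +
      (G.filter (fun n : ℕ => ¬ (p₁ : ℤ) ∣ (n : ℤ) ^ 2 - 2)).card = G.card :=
    card_filter_add_card_filter_not _
  have hfin : c / 4 * (X / L ^ 2) ≤
      ((G.filter (fun n : ℕ => ¬ (p₁ : ℤ) ∣ (n : ℤ) ^ 2 - 2)).card : ℝ) := by
    have h1 : ((G.filter (fun n : ℕ => (p₁ : ℤ) ∣ (n : ℤ) ^ 2 - 2)).card : ℝ) +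
        ((G.filter (fun n : ℕ => ¬ (p₁ : ℤ) ∣ (n : ℤ) ^ 2 - 2)).card : ℝ) = G.card := by
      exact_mod_cast hsplit
    nlinarith
  calc c / 12 * x / Real.log x ^ 2 = c / 4 * (X / Real.log x ^ 2) := by
        rw [hXdef]
        ring
    _ ≤ c / 4 * (X / L ^ 2) := by
        apply mul_le_mul_of_nonneg_left _ (by positivity)
        apply div_le_div_of_nonneg_left hXpos.le (by positivity)
        exact pow_le_pow_left₀ hL0.le hlx' 2
    _ ≤ _ := hfin
    _ ≤ _ := by exact_mod_cast card_le_card hgood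

end Pool.Agent.H19.BV
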