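import Pool.Agent.H30.BV.Targets

/-! # Levels of primes -/

set_option autoImplicit false

open Finset Real

namespace Pool.Agent.H19.BV

open Pool.Agent.H30.BV

theorem one_lt_log_three : 1 < Real.log 3 := by
  have h := Real.exp_one_lt_d9
  rw [Real.lt_log_iff_exp_lt (by norm_num)]
  linarith

theorem mem_PZ {z : ℝ} {p₁ p : ℕ} (hz : 0 ≤ z) (hp : p ∈ PZ z p₁) :
    3 ≤ p ∧ (p : ℝ) ≤ z ∧ p.Prime ∧ p ≠ p₁ := by
  unfold PZ at hp
  rw [mem_filter, mem_Icc] at hp
  exact ⟨hp.1.1, (Nat.le_floor_iff hz).1 hp.1.2, hp.2.1, hp.2.2⟩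

theorem log_p_bounds {z : ℝ} {p₁ p : ℕ} (hz : 3 ≤ z) (hp : p ∈ PZ z p₁) :
    1 < Real.log p ∧ Real.log p ≤ Real.log z := by
  obtain ⟨h1, h2, -, -⟩ := mem_PZ (by linarith) hp
  have h3 : (3 : ℝ) ≤ p := by exact_mod_cast h1
  refine ⟨one_lt_log_three.trans_le (Real.log_le_log (by norm_num) h3), ?_⟩
  exact Real.log_le_log (by linarith) h2

theorem lv_bounds {z : ℝ} {p₁ p : ℕ} (hz : 3 ≤ z) (hp : p ∈ PZ z p₁) :
    (2 : ℝ) ^ lv z p * Real.log p ≤ Real.log z ∧
      Real.log z < (2 : ℝ) ^ (lv z p + 1) * Real.log p := by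
  obtain ⟨h1, h2⟩ := log_p_bounds hz hp
  have hp0 : 0 < Real.log p := by linarith
  have hz0 : 0 < Real.log z := by linarith
  have h20 : 0 < Real.log 2 := Real.log_pos (by norm_num)
  set r : ℝ := Real.log z / Real.log p with hr
  have hr0 : 0 < r := div_pos hz0 hp0
  have hr1 : 1 ≤ r := (one_le_div hp0).2 h2
  have hlr : 0 ≤ Real.log r := Real.log_nonneg hr1
  have hx : 0 ≤ Real.log r / Real.log 2 := div_nonneg hlr h20.le
  have hlv : lv z p = ⌊Real.log r / Real.log 2⌋₊ := rfl
  have e1 : ((lv z p : ℕ) : ℝ) ≤ Real.log r / Real.log 2 := by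
    rw [hlv]
    exact Nat.floor_le hx
  have e2 : Real.log r / Real.log 2 < (lv z p : ℝ) + 1 := by
    rw [hlv]
    exact Nat.lt_floor_add_one _
  rw [le_div_iff₀ h20] at e1
  rw [div_lt_iff₀ h20] at e2
  have f1 : (2 : ℝ) ^ lv z p ≤ r := by
    rw [← Real.log_le_log_iff (by positivity) hr0, Real.log_pow]
    exact e1
  have f2 : r < (2 : ℝ) ^ (lv z p + 1) := by
    rw [← Real.log_lt_log_iff hr0 (by positivity), Real.log_pow]
    push_cast
    exact e2
  constructor
  · rw [hr, le_div_iff₀ hp0] at f1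
    exact f1
  · rw [hr, div_lt_iff₀ hp0] at f2
    exact f2

theorem half_pow_mul (k : ℕ) : (1 / 2 : ℝ) ^ k * 2 ^ k = 1 := by
  rw [← mul_pow]
  norm_num

theorem level_sum (b t : ℕ) : ∑ j ∈ range t, (2 * ((b : ℝ) + j) + 1) * (1 / 2 : ℝ) ^ j =
    (4 * b + 6) - (4 * b + 6 + 4 * t) * (1 / 2 : ℝ) ^ t := by
  induction t with
  | zero => simp
  | succ t ih =>
    rw [sum_range_succ, ih, pow_succ]
    push_cast
    ring

theorem lv_mod : T_LV := by
  intro z p₁ hz
  have hz0 : (0 : ℝ) < z := by linarith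
  have hlz : 1 < Real.log z :=
    one_lt_log_three.trans_le (Real.log_le_log (by norm_num) hz)
  have h20 : 0 < Real.log 2 := Real.log_pos (by norm_num)
  have hpow : ∀ y : ℝ, z ^ y = Real.exp (Real.log z * y) := fun y => Real.rpow_def_of_pos hz0 y
  have hup : ∀ p ∈ PZ z p₁, Real.log p ≤ (1 / 2 : ℝ) ^ lv z p * Real.log z := by
    intro p hp
    have h1 := (lv_bounds hz hp).1
    have h2 : (1 / 2 : ℝ) ^ lv z p * ((2 : ℝ) ^ lv z p * Real.log p) ≤
        (1 / 2 : ℝ) ^ lv z p * Real.log z := mul_le_mul_of_nonneg_left h1 (by positivity)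
    rw [← mul_assoc, half_pow_mul, one_mul] at h2
    exact h2
  have hlow : ∀ p ∈ PZ z p₁, (1 / 2 : ℝ) ^ (lv z p + 1) * Real.log z < Real.log p := by
    intro p hp
    have h1 := (lv_bounds hz hp).2
    have h2 : (1 / 2 : ℝ) ^ (lv z p + 1) * Real.log z <
        (1 / 2 : ℝ) ^ (lv z p + 1) * ((2 : ℝ) ^ (lv z p + 1) * Real.log p) :=
      mul_lt_mul_of_pos_left h1 (by positivity)
    rw [← mul_assoc, half_pow_mul, one_mul] at h2
    exact h2
  have hlev : ∀ p ∈ PZ z p₁, lv z p < nl z := by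
    intro p hp
    obtain ⟨h1, h2⟩ := log_p_bounds hz hp
    have h3 : lv z p ≤ ⌊Real.log (Real.log z) / Real.log 2⌋₊ := by
      unfold lv
      apply Nat.floor_mono
      apply div_le_div_of_nonneg_right _ h20.le
      apply Real.log_le_log (div_pos (by linarith) (by linarith))
      rw [div_le_iff₀ (by linarith)]
      nlinarith
    unfold nl
    omega
  refine ⟨hlev, ?_, ?_, ?_⟩
  · intro p hp
    obtain ⟨h1, -⟩ := log_p_bounds hz hp
    obtain ⟨h3, -, -, -⟩ := mem_PZ (by linarith) hp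
    have hp0 : (0 : ℝ) < p := by
      have : (3 : ℝ) ≤ p := by exact_mod_cast h3
      linarith
    constructor
    · rw [hpow, ← Real.lt_log_iff_exp_lt hp0, mul_comm]
      exact hlow p hp
    · rw [hpow, ← Real.log_le_iff_le_exp hp0, mul_comm]
      exact hup p hp
  · intro b s hs
    unfold Sad at hs
    rw [mem_filter, mem_powerset] at hs
    obtain ⟨hsP, hcard⟩ := hs
    have hpos : ∀ p ∈ s, (0 : ℝ) < p := by
      intro p hp
      obtain ⟨h3, -, -, -⟩ := mem_PZ (by linarith) (hsP hp)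
      have : (3 : ℝ) ≤ p := by exact_mod_cast h3
      linarith
    have hprod0 : (0 : ℝ) < ((∏ p ∈ s, p : ℕ) : ℝ) := by
      push_cast
      exact prod_pos hpos
    have hz1 : z ^ (4 * b + 6) = Real.exp (Real.log z * (4 * b + 6)) := by
      rw [← Real.rpow_natCast, hpow]
      push_cast
      rfl
    rw [hz1, ← Real.log_le_iff_le_exp hprod0]
    push_cast
    rw [Real.log_prod (fun p hp => (hpos p hp).ne')]
    have hfib : ∑ p ∈ s, Real.log (p : ℝ) = ∑ j ∈ range (nl z),
        ∑ p ∈ s.filter (fun p => lv z p = j), Real.log (p : ℝ) := by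
      symm
      apply sum_fiberwise_of_maps_to
      intro p hp
      exact mem_range.2 (hlev p (hsP hp))
    rw [hfib]
    calc ∑ j ∈ range (nl z), ∑ p ∈ s.filter (fun p => lv z p = j), Real.log (p : ℝ)
        ≤ ∑ j ∈ range (nl z), (2 * ((b : ℝ) + j) + 1) * ((1 / 2 : ℝ) ^ j * Real.log z) := by
          apply sum_le_sum
          intro j hj
          have h1 : ∑ p ∈ s.filter (fun p => lv z p = j), Real.log (p : ℝ) ≤
              (s.filter (fun p => lv z p = j)).card • ((1 / 2 : ℝ) ^ j * Real.log z) := by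
            apply sum_le_card_nsmul
            intro p hp
            rw [mem_filter] at hp
            have := hup p (hsP hp.1)
            rw [hp.2] at this
            exact this
          refine h1.trans ?_
          rw [nsmul_eq_mul]
          apply mul_le_mul_of_nonneg_right _ (by positivity)
          have h2 := hcard j hj
          have h3 : ((s.filter (fun p => lv z p = j)).card : ℝ) ≤ ((2 * (b + j) + 1 : ℕ) : ℝ) := by
            exact_mod_cast h2
          push_cast at h3
          exact h3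
      _ = (∑ j ∈ range (nl z), (2 * ((b : ℝ) + j) + 1) * (1 / 2 : ℝ) ^ j) * Real.log z := by
          rw [sum_mul]
          apply sum_congr rfl
          intro j _
          ring
      _ ≤ (4 * b + 6) * Real.log z := by
          apply mul_le_mul_of_nonneg_right _ (by linarith)
          rw [level_sum]
          have : 0 ≤ (4 * (b : ℝ) + 6 + 4 * (nl z : ℝ)) * (1 / 2 : ℝ) ^ nl z := by positivity
          linarith
      _ = Real.log z * (4 * b + 6) := mul_comm _ _
  · unfold nl
    push_cast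
    have h1 : 0 ≤ Real.log (Real.log z) / Real.log 2 :=
      div_nonneg (Real.log_nonneg hlz.le) h20.le
    have h2 := Nat.floor_le h1
    have h3 : Real.log (Real.log z) ≤ Real.log z - 1 :=
      Real.log_le_sub_one_of_pos (by linarith)
    have h4 : Real.log (Real.log z) / Real.log 2 ≤ 2 * (Real.log z - 1) := by
      rw [div_le_iff₀ h20]
      have h5 := Real.log_two_gt_d9
      nlinarith
    linarith

end Pool.Agent.H19.BV
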