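import Pool.Agent.H30.BV.Targets
import Pool.Agent.H33.PF.M8
import Pool.Agent.H12.PF.MR

/-! # Lower bound for the main product -/

set_option autoImplicit false

open Finset Real

namespace Pool.Agent.H19.BV

open Pool.Agent.H30.BV Pool.Agent.H30.PF

theorem vl_term {p : ℕ} (h3 : 3 ≤ p) (hS : S8 p) :
    Real.exp (-(2 / (p : ℝ) + 21 / 2 * (1 / (p : ℝ) ^ 2))) ≤ 1 - gg p := by
  have h7 : 7 ≤ p := by
    unfold S8 at hS
    omega
  have hp : (7 : ℝ) ≤ p := by exact_mod_cast h7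
  have e1 : gg p = 2 / ((p : ℝ) - 1) := by
    unfold gg
    rw [if_pos hS]
  have h1 : (0 : ℝ) < p - 1 := by linarith
  have h2 : (0 : ℝ) < p - 3 := by linarith
  have e2 : 1 - gg p = ((p : ℝ) - 3) / (p - 1) := by
    rw [e1]
    field_simp
    ring
  have hpos : 0 < 1 - gg p := by
    rw [e2]
    positivity
  rw [← Real.le_log_iff_exp_le hpos]
  have h4 := Real.one_sub_inv_le_log_of_pos hpos
  refine le_trans ?_ h4
  rw [e2, inv_div]
  have e3 : 1 - ((p : ℝ) - 1) / (p - 3) = -(2 / (p - 3)) := by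
    field_simp
    ring
  rw [e3, neg_le_neg_iff]
  rw [div_add' _ _ _ (by positivity), div_le_div_iff₀ h2 (by positivity)]
  have e4 : 21 / 2 * (1 / (p : ℝ) ^ 2) * (p : ℝ) = 21 / 2 / p := by
    field_simp
  rw [e4]
  have h5 : 0 < 21 / 2 / (p : ℝ) := by positivity
  have e5 : 21 / 2 / (p : ℝ) * p = 21 / 2 := by field_simp
  nlinarith

theorem vl : T_VL := by
  obtain ⟨C, hC⟩ := M8.m8 Pool.Agent.H12.PF.mr
  have hsum : Summable (fun n : ℕ => 1 / (n : ℝ) ^ 2) := Real.summable_one_div_nat_pow.2 (by norm_num)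
  set D : ℝ := ∑' n : ℕ, 1 / (n : ℝ) ^ 2 with hD
  refine ⟨Real.exp (-(2 * C + 21 / 2 * D)), Real.exp_pos _, ?_⟩
  intro z p₁ hz
  have hz0 : (0 : ℝ) < z := by linarith
  set y : ℕ := ⌊z⌋₊ with hy
  have hy3 : 3 ≤ y := by
    rw [hy, Nat.le_floor_iff hz0.le]
    exact_mod_cast hz
  have hyz : (y : ℝ) ≤ z := Nat.floor_le hz0.le
  have hy3' : (3 : ℝ) ≤ y := by exact_mod_cast hy3
  have hly : 0 < Real.log y := Real.log_pos (by linarith)
  have hlz : 0 < Real.log z := Real.log_pos (by linarith)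
  have hlyz : Real.log y ≤ Real.log z := Real.log_le_log (by linarith) hyz
  set P : Finset ℕ := (PZ z p₁).filter S8 with hP
  have hPZ : ∏ p ∈ PZ z p₁, (1 - gg p) = ∏ p ∈ P, (1 - gg p) := by
    symm
    apply prod_filter_of_ne
    intro p _ hne
    by_contra hS
    apply hne
    unfold gg
    rw [if_neg hS, sub_zero]
  rw [hPZ]
  have hmem : ∀ p ∈ P, 3 ≤ p ∧ p ≤ y ∧ p.Prime ∧ S8 p := by
    intro p hp
    rw [hP, mem_filter] at hp
    obtain ⟨h1, h2⟩ := hp
    unfold PZ at h1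
    rw [mem_filter, mem_Icc] at h1
    exact ⟨h1.1.1, h1.1.2, h1.2.1, h2⟩
  have h1 : Real.exp (-(∑ p ∈ P, (2 / (p : ℝ) + 21 / 2 * (1 / (p : ℝ) ^ 2)))) ≤
      ∏ p ∈ P, (1 - gg p) := by
    rw [← sum_neg_distrib, Real.exp_sum]
    apply prod_le_prod
    · intro p _
      positivity
    · intro p hp
      exact vl_term (hmem p hp).1 (hmem p hp).2.2.2
  refine le_trans ?_ h1
  have h2 : ∑ p ∈ P, (2 / (p : ℝ) + 21 / 2 * (1 / (p : ℝ) ^ 2)) ≤
      Real.log (Real.log z) + (2 * C + 21 / 2 * D) := by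
    rw [sum_add_distrib, ← mul_sum]
    have h3 : ∑ p ∈ P, 2 / (p : ℝ) ≤ Real.log (Real.log z) + 2 * C := by
      have h4 : ∑ p ∈ P, (1 : ℝ) / p ≤
          ∑ q ∈ (Icc 1 y).filter (fun q => q.Prime ∧ S8 q), (1 : ℝ) / q := by
        apply sum_le_sum_of_subset_of_nonneg
        · intro p hp
          obtain ⟨a, b, c, d⟩ := hmem p hp
          rw [mem_filter, mem_Icc]
          exact ⟨⟨by omega, b⟩, c, d⟩
        · intro q _ _
          positivity
      have h5 := hC y hy3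
      have h6 : Real.log (Real.log y) ≤ Real.log (Real.log z) := Real.log_le_log hly hlyz
      have h7 : ∑ p ∈ P, 2 / (p : ℝ) = 2 * ∑ p ∈ P, (1 : ℝ) / p := by
        rw [mul_sum]
        apply sum_congr rfl
        intro p _
        ring
      rw [h7]
      linarith
    have h8 : ∑ p ∈ P, 1 / (p : ℝ) ^ 2 ≤ D :=
      hsum.sum_le_tsum P (fun n _ => by positivity)
    linarith
  calc Real.exp (-(2 * C + 21 / 2 * D)) / Real.log z
      = Real.exp (-(Real.log (Real.log z) + (2 * C + 21 / 2 * D))) := by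
        generalize 2 * C + 21 / 2 * D = K
        rw [neg_add, Real.exp_add, Real.exp_neg (Real.log (Real.log z)), Real.exp_log hlz]
        ring
    _ ≤ _ := by
        apply Real.exp_le_exp.2
        linarith

end Pool.Agent.H19.BV
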